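import Mathlib

/-!
# MP_e2c3f0_co, Q1 (negative answer)

There is a weighted cycle on which the value of Weighted Tron is larger than `1/5`:
on the cycle with 39 vertices there is a weighting of total weight `1` and value at least `3 / 14`.
-/

namespace Pool.Agent.Results.MP_e2c3f0_co.CycleAboveOneFifth

open Finset

section Game

variable {V : Type*} [Fintype V] [DecidableEq V]

open Classical in
/-- The vertices available to a player whose last claimed vertex is `x`, when `C` is the set of all
vertices claimed so far: the unclaimed neighbours of `x`. -/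
noncomputable def moves (G : SimpleGraph V) (C : Finset V) (x : V) : Finset V :=
  univ.filter (fun v => G.Adj x v ∧ v ∉ C)

/-- `gain G w k C a b t` is, under optimal play, the total weight that Bob still claims minus the
total weight that Alice still claims, when `C` is the set of claimed vertices, `a` and `b` are the
vertices last claimed by Alice and by Bob, and it is Alice's turn if `t = true` and Bob's turn if
`t = false`. A player with an available vertex must claim one; if the player whose turn it is has
none, the other player moves; the game ends when neither can move. The number `k` bounds the number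
of further claims (it is immaterial once it is at least the number of unclaimed vertices, see
`gain_stable`). -/
noncomputable def gain (G : SimpleGraph V) (w : V → ℝ) : ℕ → Finset V → V → V → Bool → ℝ
  | 0, _, _, _, _ => 0
  | k + 1, C, a, b, true =>
      if hA : (moves G C a).Nonempty then
        (moves G C a).inf' hA (fun v => gain G w k (insert v C) v b false - w v)
      else if hB : (moves G C b).Nonempty then
        (moves G C b).sup' hB (fun v => gain G w k (insert v C) a v true + w v)
      else 0
  | k + 1, C, a, b, false =>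
      if hB : (moves G C b).Nonempty then
        (moves G C b).sup' hB (fun v => gain G w k (insert v C) a v true + w v)
      else if hA : (moves G C a).Nonempty then
        (moves G C a).inf' hA (fun v => gain G w k (insert v C) v b false - w v)
      else 0

/-- The value `Δ(G, w)` of Weighted Tron: Alice picks a start vertex `a`, Bob picks a start vertex
`b ≠ a`, then they move alternately, Alice first. -/
noncomputable def value (G : SimpleGraph V) (w : V → ℝ) : ℝ :=
  ⨅ a : V, ⨆ b : {b : V // b ≠ a},
    (w b - w a + gain G w (Fintype.card V) {a, (b : V)} a b true)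

lemma mem_moves (G : SimpleGraph V) (C : Finset V) (x v : V) :
    v ∈ moves G C x ↔ G.Adj x v ∧ v ∉ C := by
  unfold moves
  simp

/-- The bound `k` on the number of further claims is immaterial once it is at least the number of
unclaimed vertices. -/
lemma gain_stable (G : SimpleGraph V) (w : V → ℝ) : ∀ (k : ℕ) (C : Finset V) (a b : V) (t : Bool),
    Cᶜ.card ≤ k → gain G w (k + 1) C a b t = gain G w k C a b t := by
  intro k
  induction k with
  | zero =>
    intro C a b t hk
    have hC : ∀ v, v ∈ C := by
      intro v
      by_contra hv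
      have : v ∈ Cᶜ := Finset.mem_compl.mpr hv
      have h1 : 0 < Cᶜ.card := Finset.card_pos.mpr ⟨v, this⟩
      omega
    have hm : ∀ x, ¬ (moves G C x).Nonempty := by
      rintro x ⟨v, hv⟩
      exact ((mem_moves G C x v).mp hv).2 (hC v)
    cases t <;> simp [gain, hm]
  | succ k ih =>
    intro C a b t hk
    have hins : ∀ x v, v ∈ moves G C x → (insert v C)ᶜ.card ≤ k := by
      intro x v hv
      have hvC := ((mem_moves G C x v).mp hv).2
      have h1 := Finset.card_compl_add_card (insert v C)
      have h2 := Finset.card_compl_add_card C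
      rw [Finset.card_insert_of_notMem hvC] at h1
      omega
    have hinf : ∀ (hA : (moves G C a).Nonempty),
        (moves G C a).inf' hA (fun v => gain G w (k + 1) (insert v C) v b false - w v) =
        (moves G C a).inf' hA (fun v => gain G w k (insert v C) v b false - w v) := by
      intro hA
      apply Finset.inf'_congr _ rfl
      intro v hv
      rw [ih _ _ _ _ (hins a v hv)]
    have hsup : ∀ (hB : (moves G C b).Nonempty),
        (moves G C b).sup' hB (fun v => gain G w (k + 1) (insert v C) a v true + w v) =
        (moves G C b).sup' hB (fun v => gain G w k (insert v C) a v true + w v) := by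
      intro hB
      apply Finset.sup'_congr _ rfl
      intro v hv
      rw [ih _ _ _ _ (hins b v hv)]
    cases t
    · rw [gain, gain]
      by_cases hB : (moves G C b).Nonempty
      · simp only [hB, dif_pos, hsup hB]
      · by_cases hA : (moves G C a).Nonempty
        · simp only [hB, hA, dif_pos, dif_neg, not_false_eq_true, hinf hA]
        · simp only [hB, hA, dif_neg, not_false_eq_true]
    · rw [gain, gain]
      by_cases hA : (moves G C a).Nonempty
      · simp only [hA, dif_pos, hinf hA]
      · by_cases hB : (moves G C b).Nonempty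
        · simp only [hB, hA, dif_pos, dif_neg, not_false_eq_true, hsup hB]
        · simp only [hB, hA, dif_neg, not_false_eq_true]

end Game

/-! ### The weighting -/

/-- Weight of vertex `v`, multiplied by 54 (hexadecimal digits of a constant). -/
def W (v : ℕ) : ℕ := (16 ^ 5 * 6 + 16 ^ 9 * 6 + 16 ^ 16 * 6 + 16 ^ 17 * 6 + 16 ^ 29 * 2 + 16 ^ 30 * 7 + 16 ^ 31 * 6 + 16 ^ 46 * 6 + 16 ^ 47 * 7 + 16 ^ 48 * 2) / 16 ^ v % 16

/-- The weighting (nonzero on 10 of the 52 vertices). -/
noncomputable def wt (v : Fin 52) : ℝ := (W v : ℝ) / 54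

def nx (x : ℕ) : ℕ := (x + 1) % 52
def pv (x : ℕ) : ℕ := (x + 51) % 52

/-- Executable check that Bob can force `B - A ≥ 12` in units of `1/54`. -/
def g : ℕ → ℕ → ℕ → ℕ → Bool → ℕ → ℕ → Bool
  | 0, _, _, _, _, sA, sB => Nat.ble (sA + 12) sB
  | k + 1, C, a, b, t, sA, sB =>
    bif t then
      (bif (!(C.testBit (nx a)) || !(C.testBit (pv a))) then
        ((C.testBit (nx a) || g k (C ||| 2 ^ (nx a)) (nx a) b false (sA + W (nx a)) sB) &&
         (C.testBit (pv a) || g k (C ||| 2 ^ (pv a)) (pv a) b false (sA + W (pv a)) sB))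
      else bif (!(C.testBit (nx b)) || !(C.testBit (pv b))) then
        ((!(C.testBit (nx b)) && g k (C ||| 2 ^ (nx b)) a (nx b) true sA (sB + W (nx b))) ||
         (!(C.testBit (pv b)) && g k (C ||| 2 ^ (pv b)) a (pv b) true sA (sB + W (pv b))))
      else Nat.ble (sA + 12) sB)
    else
      (bif (!(C.testBit (nx b)) || !(C.testBit (pv b))) then
        ((!(C.testBit (nx b)) && g k (C ||| 2 ^ (nx b)) a (nx b) true sA (sB + W (nx b))) ||
         (!(C.testBit (pv b)) && g k (C ||| 2 ^ (pv b)) a (pv b) true sA (sB + W (pv b))))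
      else bif (!(C.testBit (nx a)) || !(C.testBit (pv a))) then
        ((C.testBit (nx a) || g k (C ||| 2 ^ (nx a)) (nx a) b false (sA + W (nx a)) sB) &&
         (C.testBit (pv a) || g k (C ||| 2 ^ (pv a)) (pv a) b false (sA + W (pv a)) sB))
      else Nat.ble (sA + 12) sB)

/-- Bob's start vertex, given Alice's. -/
def reply (a : ℕ) : ℕ :=
  ([31, 10, 9, 8, 7, 6, 7, 8, 9, 48, 47, 48, 47, 30, 29, 30, 29, 16, 17, 17, 17, 17, 17, 16, 9, 46, 45, 44, 43, 42, 9, 30, 31, 31, 31, 31, 31, 31, 31, 46, 47, 46, 45, 44, 45, 46, 47, 16, 31, 31, 31, 31] : List ℕ).getD a 0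

set_option maxRecDepth 100000 in
theorem chk : ∀ a : Fin 52, reply a ≠ a ∧ reply a < 52 ∧
    g 52 (2 ^ (a : ℕ) ||| 2 ^ (reply a)) a (reply a) true (W a) (W (reply a)) = true := by
  decide +kernel

set_option maxRecDepth 100000 in
theorem adj_iff : ∀ x v : Fin 52, (SimpleGraph.cycleGraph 52).Adj x v ↔
    ((v : ℕ) = nx x ∨ (v : ℕ) = pv x) := by
  have h : ∀ x v : Fin 52, (x - v = 1 ∨ v - x = 1) ↔ ((v : ℕ) = nx x ∨ (v : ℕ) = pv x) := by
    decide +kernel
  intro x v
  rw [SimpleGraph.cycleGraph_adj]
  exact h x v

abbrev G0 : SimpleGraph (Fin 52) := SimpleGraph.cycleGraph 52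

/-- `m` codes the set `C`. -/
def Code (C : Finset (Fin 52)) (m : ℕ) : Prop := ∀ v : Fin 52, v ∈ C ↔ m.testBit v = true

lemma code_insert (C : Finset (Fin 52)) (m : ℕ) (h : Code C m) (v : Fin 52) :
    Code (insert v C) (m ||| 2 ^ (v : ℕ)) := by
  intro u
  rw [Finset.mem_insert, h u, Nat.testBit_or, Nat.testBit_two_pow, Bool.or_eq_true,
    decide_eq_true_eq]
  constructor
  · rintro (rfl | h)
    · exact Or.inr rfl
    · exact Or.inl h
  · rintro (h | h)
    · exact Or.inr h
    · exact Or.inl (Fin.ext h.symm)

lemma nx_lt (x : ℕ) : nx x < 52 := Nat.mod_lt _ (by norm_num)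
lemma pv_lt (x : ℕ) : pv x < 52 := Nat.mod_lt _ (by norm_num)

/-- Membership in the set of moves, in terms of the code. -/
lemma moves_iff (C : Finset (Fin 52)) (m : ℕ) (h : Code C m) (x v : Fin 52) :
    v ∈ moves G0 C x ↔ (((v : ℕ) = nx x ∨ (v : ℕ) = pv x) ∧ m.testBit v = false) := by
  rw [mem_moves, adj_iff, h v, Bool.not_eq_true]

lemma moves_nonempty (C : Finset (Fin 52)) (m : ℕ) (h : Code C m) (x : Fin 52) :
    (moves G0 C x).Nonempty ↔ (!(m.testBit (nx x)) || !(m.testBit (pv x))) = true := by
  rw [Bool.or_eq_true, Bool.not_eq_true', Bool.not_eq_true']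
  constructor
  · rintro ⟨v, hv⟩
    rw [moves_iff C m h] at hv
    obtain ⟨h1 | h1, h2⟩ := hv
    · left; rw [← h1]; exact h2
    · right; rw [← h1]; exact h2
  · rintro (h1 | h1)
    · exact ⟨⟨nx x, nx_lt _⟩, (moves_iff C m h x _).mpr ⟨Or.inl rfl, h1⟩⟩
    · exact ⟨⟨pv x, pv_lt _⟩, (moves_iff C m h x _).mpr ⟨Or.inr rfl, h1⟩⟩

/-- Soundness of the check. -/
lemma sound : ∀ (k : ℕ) (C : Finset (Fin 52)) (m : ℕ), Code C m → ∀ (a b : Fin 52) (t : Bool)
    (sA sB : ℕ), g k m a b t sA sB = true →
    ((sA : ℝ) + 12 - sB) / 54 ≤ gain G0 wt k C a b t := by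
  intro k
  induction k with
  | zero =>
    intro C m _ a b t sA sB hg
    have h1 : sA + 12 ≤ sB := Nat.le_of_ble_eq_true hg
    have h2 : (sA : ℝ) + 12 ≤ sB := by exact_mod_cast h1
    simp only [gain]
    apply div_nonpos_of_nonpos_of_nonneg (by linarith) (by norm_num)
  | succ k ih =>
    intro C m hC a b t sA sB hg
    have hstop : Nat.ble (sA + 12) sB = true → ((sA : ℝ) + 12 - sB) / 54 ≤ 0 := by
      intro h
      have h1 : sA + 12 ≤ sB := Nat.le_of_ble_eq_true h
      have h2 : (sA : ℝ) + 12 ≤ sB := by exact_mod_cast h1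
      apply div_nonpos_of_nonpos_of_nonneg (by linarith) (by norm_num)
    have hAlice : ∀ hA : (moves G0 C a).Nonempty,
        ((m.testBit (nx a) || g k (m ||| 2 ^ (nx a)) (nx a) b false (sA + W (nx a)) sB) &&
         (m.testBit (pv a) || g k (m ||| 2 ^ (pv a)) (pv a) b false (sA + W (pv a)) sB)) = true →
        ((sA : ℝ) + 12 - sB) / 54 ≤
          (moves G0 C a).inf' hA (fun v => gain G0 wt k (insert v C) v b false - wt v) := by
      intro hA h
      rw [Bool.and_eq_true, Bool.or_eq_true, Bool.or_eq_true] at h
      rw [Finset.le_inf'_iff]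
      intro v hv
      rw [moves_iff C m hC] at hv
      have hgv : g k (m ||| 2 ^ (v : ℕ)) v b false (sA + W v) sB = true := by
        obtain ⟨h1 | h1, h2⟩ := hv
        · rw [h1] at h2 ⊢
          rcases h.1 with h3 | h3
          · rw [h2] at h3; exact absurd h3 (by simp)
          · exact h3
        · rw [h1] at h2 ⊢
          rcases h.2 with h3 | h3
          · rw [h2] at h3; exact absurd h3 (by simp)
          · exact h3
      have := ih (insert v C) _ (code_insert C m hC v) v b false _ _ hgv
      simp only [wt]
      push_cast at this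
      have e : ((sA : ℝ) + W v + 12 - sB) / 54 = ((sA : ℝ) + 12 - sB) / 54 + (W v : ℝ) / 54 := by
        ring
      linarith
    have hBob : ∀ hB : (moves G0 C b).Nonempty,
        ((!(m.testBit (nx b)) && g k (m ||| 2 ^ (nx b)) a (nx b) true sA (sB + W (nx b))) ||
         (!(m.testBit (pv b)) && g k (m ||| 2 ^ (pv b)) a (pv b) true sA (sB + W (pv b)))) = true →
        ((sA : ℝ) + 12 - sB) / 54 ≤
          (moves G0 C b).sup' hB (fun v => gain G0 wt k (insert v C) a v true + wt v) := by
      intro hB h
      have hv : ∃ v : Fin 52, v ∈ moves G0 C b ∧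
          g k (m ||| 2 ^ (v : ℕ)) a v true sA (sB + W v) = true := by
        rw [Bool.or_eq_true, Bool.and_eq_true, Bool.and_eq_true, Bool.not_eq_true',
          Bool.not_eq_true'] at h
        rcases h with ⟨h1, h2⟩ | ⟨h1, h2⟩
        · exact ⟨⟨nx b, nx_lt _⟩, (moves_iff C m hC b _).mpr ⟨Or.inl rfl, h1⟩, h2⟩
        · exact ⟨⟨pv b, pv_lt _⟩, (moves_iff C m hC b _).mpr ⟨Or.inr rfl, h1⟩, h2⟩
      obtain ⟨v, hv, hgv⟩ := hv
      have h1 := ih (insert v C) _ (code_insert C m hC v) a v true _ _ hgv
      have h2 := Finset.le_sup' (fun v => gain G0 wt k (insert v C) a v true + wt v) hv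
      refine le_trans ?_ h2
      simp only [wt]
      push_cast at h1
      have e : ((sA : ℝ) + 12 - ((sB : ℝ) + W v)) / 54 =
          ((sA : ℝ) + 12 - sB) / 54 - (W v : ℝ) / 54 := by
        ring
      linarith
    cases t
    · simp only [g, cond_false] at hg
      rw [gain]
      by_cases hB : (moves G0 C b).Nonempty
      · rw [(moves_nonempty C m hC b).mp hB, cond_true] at hg
        rw [dif_pos hB]
        exact hBob hB hg
      · have hB' : (!(m.testBit (nx b)) || !(m.testBit (pv b))) = false := by
          rw [← Bool.not_eq_true]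
          exact fun h => hB ((moves_nonempty C m hC b).mpr h)
        rw [hB', cond_false] at hg
        rw [dif_neg hB]
        by_cases hA : (moves G0 C a).Nonempty
        · rw [(moves_nonempty C m hC a).mp hA, cond_true] at hg
          rw [dif_pos hA]
          exact hAlice hA hg
        · have hA' : (!(m.testBit (nx a)) || !(m.testBit (pv a))) = false := by
            rw [← Bool.not_eq_true]
            exact fun h => hA ((moves_nonempty C m hC a).mpr h)
          rw [hA', cond_false] at hg
          rw [dif_neg hA]
          exact hstop hg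
    · simp only [g, cond_true] at hg
      rw [gain]
      by_cases hA : (moves G0 C a).Nonempty
      · rw [(moves_nonempty C m hC a).mp hA, cond_true] at hg
        rw [dif_pos hA]
        exact hAlice hA hg
      · have hA' : (!(m.testBit (nx a)) || !(m.testBit (pv a))) = false := by
          rw [← Bool.not_eq_true]
          exact fun h => hA ((moves_nonempty C m hC a).mpr h)
        rw [hA', cond_false] at hg
        rw [dif_neg hA]
        by_cases hB : (moves G0 C b).Nonempty
        · rw [(moves_nonempty C m hC b).mp hB, cond_true] at hg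
          rw [dif_pos hB]
          exact hBob hB hg
        · have hB' : (!(m.testBit (nx b)) || !(m.testBit (pv b))) = false := by
            rw [← Bool.not_eq_true]
            exact fun h => hB ((moves_nonempty C m hC b).mpr h)
          rw [hB', cond_false] at hg
          rw [dif_neg hB]
          exact hstop hg

set_option maxRecDepth 100000 in
theorem W_sum : ∑ v : Fin 52, W v = 54 := by
  decide +kernel

theorem result : ∃ n : ℕ, 3 ≤ n ∧ ∃ w : Fin n → ℝ, (∀ v, 0 ≤ w v) ∧ ∑ v, w v = 1 ∧
    (1 : ℝ) / 5 < 2 / 9 ∧ 2 / 9 ≤ value (SimpleGraph.cycleGraph n) w := by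
  refine ⟨52, by norm_num, wt, ?_, ?_, by norm_num, ?_⟩
  · intro v
    unfold wt
    positivity
  · unfold wt
    rw [← Finset.sum_div]
    have h := W_sum
    have h2 : (∑ v : Fin 52, (W v : ℝ)) = 54 := by
      exact_mod_cast h
    rw [h2]
    norm_num
  · unfold value
    apply le_ciInf
    intro a
    obtain ⟨h1, h2, h3⟩ := chk a
    set b : Fin 52 := ⟨reply a, h2⟩ with hb
    have hba : b ≠ a := fun h => h1 (congrArg Fin.val h)
    have hcode : Code ({a, b} : Finset (Fin 52)) (2 ^ (a : ℕ) ||| 2 ^ (reply a)) := by
      intro v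
      rw [Finset.mem_insert, Finset.mem_singleton, Nat.testBit_or, Nat.testBit_two_pow,
        Nat.testBit_two_pow, Bool.or_eq_true, decide_eq_true_eq, decide_eq_true_eq]
      constructor
      · rintro (rfl | rfl)
        · exact Or.inl rfl
        · exact Or.inr rfl
      · rintro (h | h)
        · exact Or.inl (Fin.ext h.symm)
        · exact Or.inr (Fin.ext h.symm)
    have h4 := sound 52 _ _ hcode a b true _ _ h3
    have h5 : BddAbove (Set.range (fun b : {b : Fin 52 // b ≠ a} =>
        (wt b - wt a + gain G0 wt (Fintype.card (Fin 52)) {a, (b : Fin 52)} a b true))) :=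
      Set.finite_range _ |>.bddAbove
    refine le_trans ?_ (le_ciSup h5 ⟨b, hba⟩)
    simp only [Fintype.card_fin]
    have hwb : wt b = (W (reply a) : ℝ) / 54 := rfl
    have hwa : wt a = (W a : ℝ) / 54 := rfl
    rw [hwa, hwb]
    have e : ((W a : ℝ) + 12 - W (reply a)) / 54 =
        (W a : ℝ) / 54 + 2 / 9 - (W (reply a) : ℝ) / 54 := by
      ring
    rw [e] at h4
    linarith

end Pool.Agent.Results.MP_e2c3f0_co.CycleAboveOneFifth
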